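import Pool.Agent.STN.Fam

/-!
# Stein's problem: the two families (helper18)
-/

set_option autoImplicit false
set_option maxRecDepth 100000

namespace Pool.Agent.STN

open Finset

namespace Dat

variable (d : Dat)

instance (t : Fin (d.a + d.b + 2) → Bool × Bool) (ch : Bool → Bool) : Decidable (d.Adm t ch) := by
  unfold Adm
  exact @instDecidableAnd _ _ inferInstance (@instDecidableAnd _ _ inferInstance
    (@instDecidableAnd _ _ inferInstance inferInstance))

instance (t : Fin (d.a + d.b + 2) → Bool × Bool) (ch : Bool → Bool) : Decidable (d.Conf t ch) := by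
  unfold Conf
  infer_instance

end Dat

/-- even orders -/
def dE : Dat where
  a := 1
  b := 1
  F := 6
  A := ![0, 1, 2, 3]
  B := ![4, 5, 0, 1]
  C := fun w => if w then ![Sum.inr (false, false), Sum.inl 1, Sum.inl 0, Sum.inr (true, true)]
    else ![Sum.inl 3, Sum.inr (false, true), Sum.inr (true, false), Sum.inl 4]
  U := fun w c => if w then (if c then 2 else 5) else (if c then 4 else 3)

/-- odd orders -/
def dO : Dat where
  a := 2
  b := 1
  F := 7
  A := ![0, 2, 4, 3, 5]
  B := ![1, 3, 2, 5, 0]
  C := fun w => if w then ![Sum.inr (true, false), Sum.inr (true, true), Sum.inr (true, true),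
      Sum.inl 5, Sum.inr (true, false)]
    else ![Sum.inl 0, Sum.inl 6, Sum.inl 6, Sum.inl 6, Sum.inl 4]
  U := fun w c => if w then 6 else (if c then 1 else 4)

theorem admE : ∀ v0 v1 v2 v3 : Bool × Bool, ∀ c0 c1 : Bool,
    dE.Adm ![v0, v1, v2, v3] (fun w => if w then c1 else c0) →
    dE.Conf ![v0, v1, v2, v3] (fun w => if w then c1 else c0) := by
  decide +kernel

theorem admO : ∀ v0 v1 v2 v3 v4 : Bool × Bool, ∀ c0 c1 : Bool,
    dO.Adm ![v0, v1, v2, v3, v4] (fun w => if w then c1 else c0) →
    dO.Conf ![v0, v1, v2, v3, v4] (fun w => if w then c1 else c0) := by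
  decide +kernel

theorem eta_ch (ch : Bool → Bool) : ch = fun w => if w then ch true else ch false := by
  funext w
  cases w <;> rfl

theorem goodE : dE.Good where
  adm := by
    intro t ch h
    have ht : t = ![t (0 : Fin 4), t (1 : Fin 4), t (2 : Fin 4), t (3 : Fin 4)] := by
      funext (j : Fin 4)
      fin_cases j <;> rfl
    rw [ht, eta_ch ch] at h ⊢
    exact admE _ _ _ _ _ _ h
  hx := by decide +kernel
  hy := by decide +kernel
  hbig := by
    have : ∀ z : Fin 6, dE.big z ≤ 2 := by
      unfold Dat.big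
      decide +kernel
    exact this
  hsmall := by
    have : ∀ z : Fin 6, dE.small z ≤ 3 := by
      unfold Dat.small
      decide +kernel
    exact this

theorem goodO : dO.Good where
  adm := by
    intro t ch h
    have ht : t = ![t (0 : Fin 5), t (1 : Fin 5), t (2 : Fin 5), t (3 : Fin 5), t (4 : Fin 5)] := by
      funext (j : Fin 5)
      fin_cases j <;> rfl
    rw [ht, eta_ch ch] at h ⊢
    exact admO _ _ _ _ _ _ _ h
  hx := by decide +kernel
  hy := by decide +kernel
  hbig := by
    have : ∀ z : Fin 7, dO.big z ≤ 2 := by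
      unfold Dat.big
      decide +kernel
    exact this
  hsmall := by
    have : ∀ z : Fin 7, dO.small z ≤ 4 := by
      unfold Dat.small
      decide +kernel
    exact this

theorem not_stein_large {n : ℕ} (hn : 8 ≤ n) : ¬ Stein n := by
  rcases Nat.even_or_odd' n with ⟨q, rfl | rfl⟩
  · obtain ⟨k, rfl⟩ : ∃ k, q = k + 4 := ⟨q - 4, by omega⟩
    have := dE.not_stein k goodE
    have h : 2 * (k + 2) + dE.a + dE.b + 2 = 2 * (k + 4) := by
      change 2 * (k + 2) + 1 + 1 + 2 = 2 * (k + 4)
      ring
    rwa [h] at this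
  · obtain ⟨k, rfl⟩ : ∃ k, q = k + 4 := ⟨q - 4, by omega⟩
    have := dO.not_stein k goodO
    have h : 2 * (k + 2) + dO.a + dO.b + 2 = 2 * (k + 4) + 1 := by
      change 2 * (k + 2) + 2 + 1 + 2 = 2 * (k + 4) + 1
      ring
    rwa [h] at this

end Pool.Agent.STN
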