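import Mathlib

/-!
# Stein's problem: families of arrays without latin transversals (helper18)

Rows: `m + a` rows of type one, `m + b` rows of type two, two special rows.  Columns: `m` pairs of
columns and `a + b + 2` single columns.  In the pair `i` the rows of type one contain the symbol
`x i`, the rows of type two the symbol `y i`; all other symbols are in a finite set.
-/

set_option autoImplicit false

namespace Pool.Agent.STN

open Finset

/-- Every `n`-square in which each symbol occurs in at most `n - 1` cells has a latin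
transversal. -/
def Stein (n : ℕ) : Prop := ∀ A : Fin n → Fin n → ℕ,
  (∀ s : ℕ, (univ.filter fun p : Fin n × Fin n => A p.1 p.2 = s).card ≤ n - 1) →
    ∃ σ : Equiv.Perm (Fin n), Function.Injective fun i => A i (σ i)

theorem not_stein_types {R K S : Type} [Fintype R] [Fintype K] [Fintype S] [DecidableEq R]
    [DecidableEq K] [DecidableEq S] {n : ℕ} (hR : Fintype.card R = n) (hK : Fintype.card K = n)
    (T : R → K → S)
    (hT : ∀ z, (univ.filter fun p : R × K => T p.1 p.2 = z).card ≤ n - 1)
    (hno : ∀ e : R ≃ K, ¬ Function.Injective fun r => T r (e r)) : ¬ Stein n := by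
  intro h
  let eR : R ≃ Fin n := Fintype.equivFinOfCardEq hR
  let eK : K ≃ Fin n := Fintype.equivFinOfCardEq hK
  let eS := Fintype.equivFin S
  obtain ⟨σ, hσ⟩ := h (fun i j => (eS (T (eR.symm i) (eK.symm j)) : ℕ)) fun s => by
    by_cases hs : s < Fintype.card S
    · refine le_trans (card_le_card_of_injOn (fun p => (eR.symm p.1, eK.symm p.2)) ?_ ?_)
        (hT (eS.symm ⟨s, hs⟩))
      · intro p hp
        have hp' := (mem_filter.1 hp).2
        refine mem_filter.2 ⟨mem_univ _, ?_⟩
        rw [Equiv.eq_symm_apply]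
        exact Fin.ext hp'
      · intro p _ q _ hpq
        have h1 := congrArg Prod.fst hpq
        have h2 := congrArg Prod.snd hpq
        exact Prod.ext (eR.symm.injective h1) (eK.symm.injective h2)
    · rw [filter_eq_empty_iff.2 fun p _ hp => ?_, card_empty]
      · exact Nat.zero_le _
      · exact hs (hp ▸ (eS _).2)
  refine hno ((eR.trans σ).trans eK.symm) fun r r' hr => eR.injective (hσ ?_)
  have hr' : T r (eK.symm (σ (eR r))) = T r' (eK.symm (σ (eR r'))) := hr
  change ((eS (T (eR.symm (eR r)) (eK.symm (σ (eR r)))) : ℕ)) =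
    (eS (T (eR.symm (eR r')) (eK.symm (σ (eR r')))) : ℕ)
  rw [Equiv.symm_apply_apply, Equiv.symm_apply_apply, hr']

/-- the data of a family -/
structure Dat where
  a : ℕ
  b : ℕ
  F : ℕ
  A : Fin (a + b + 2) → Fin F
  B : Fin (a + b + 2) → Fin F
  C : Bool → Fin (a + b + 2) → Fin F ⊕ Bool × Bool
  U : Bool → Bool → Fin F

namespace Dat

variable (d : Dat) (k : ℕ)

/-- rows -/
abbrev Row : Type := Fin (k + 2 + d.a) ⊕ Fin (k + 2 + d.b) ⊕ Bool

/-- columns -/
abbrev Col : Type := Fin (k + 2) × Bool ⊕ Fin (d.a + d.b + 2)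

/-- symbols -/
abbrev Sym : Type := Fin (k + 2) ⊕ Fin (k + 2) ⊕ Fin d.F

/-- the first two pairs -/
def cls (c : Bool) : Fin (k + 2) := if c then 1 else 0

/-- which of the two contents a special row has in a cell of a pair -/
def bit (i : Fin (k + 2)) (c : Bool) : Bool :=
  if i = 0 then false else if i = 1 then true else c

/-- contents of special rows in single columns -/
def sg : Fin d.F ⊕ Bool × Bool → d.Sym k
  | Sum.inl z => Sum.inr (Sum.inr z)
  | Sum.inr (false, c) => Sum.inl (cls k c)
  | Sum.inr (true, c) => Sum.inr (Sum.inl (cls k c))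

/-- the array -/
def T : d.Row k → d.Col k → d.Sym k
  | Sum.inl _, Sum.inl p => Sum.inl p.1
  | Sum.inl _, Sum.inr j => Sum.inr (Sum.inr (d.A j))
  | Sum.inr (Sum.inl _), Sum.inl p => Sum.inr (Sum.inl p.1)
  | Sum.inr (Sum.inl _), Sum.inr j => Sum.inr (Sum.inr (d.B j))
  | Sum.inr (Sum.inr w), Sum.inl p => Sum.inr (Sum.inr (d.U w (bit k p.1 p.2)))
  | Sum.inr (Sum.inr w), Sum.inr j => d.sg k (d.C w j)

/-- number of single columns of type `v` -/
def cnt (t : Fin (d.a + d.b + 2) → Bool × Bool) (v : Bool × Bool) : ℕ :=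
  (univ.filter fun j => t j = v).card

/-- the symbol used in a single column if it is not an `x i` or `y i` -/
def fs (t : Fin (d.a + d.b + 2) → Bool × Bool) (j : Fin (d.a + d.b + 2)) : Option (Fin d.F) :=
  match t j with
  | (false, false) => some (d.A j)
  | (false, true) => some (d.B j)
  | (true, w) => match d.C w j with
    | Sum.inl z => some z
    | Sum.inr _ => none

/-- two equal symbols -/
def Conf (t : Fin (d.a + d.b + 2) → Bool × Bool) (ch : Bool → Bool) : Prop :=
  (∃ j j', j ≠ j' ∧ d.fs t j ≠ none ∧ d.fs t j = d.fs t j') ∨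
  (∃ w j, (∀ j', t j' ≠ (true, w)) ∧ d.fs t j = some (d.U w (ch w))) ∨
  ((∀ w j', t j' ≠ (true, w)) ∧ d.U false (ch false) = d.U true (ch true))

/-- the conditions on the profile of a latin transversal -/
def Adm (t : Fin (d.a + d.b + 2) → Bool × Bool) (ch : Bool → Bool) : Prop :=
  d.a ≤ d.cnt t (false, false) ∧ d.b ≤ d.cnt t (false, true) ∧
  (∀ w j j', t j = (true, w) → t j' = (true, w) → j = j') ∧
  ∀ w j x c, t j = (true, w) → d.C w j = Sum.inr (x, c) →
    (x = false → d.a + 1 ≤ d.cnt t (false, false)) ∧
    (x = true → d.b + 1 ≤ d.cnt t (false, true)) ∧ (∀ j', t j' ≠ (true, !w)) ∧ ch (!w) = c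

/-- big contributions to the multiplicity of `z` -/
def big (z : Fin d.F) : ℕ :=
  ∑ j, (if d.A j = z then 1 else 0) + ∑ j, (if d.B j = z then 1 else 0) +
    ∑ w, ((if d.U w false = z then 1 else 0) + (if d.U w true = z then 1 else 0))

/-- small contributions to the multiplicity of `z` -/
def small (z : Fin d.F) : ℕ :=
  d.a * ∑ j, (if d.A j = z then 1 else 0) + d.b * ∑ j, (if d.B j = z then 1 else 0) +
    ∑ w, ∑ j, (if d.C w j = Sum.inl z then 1 else 0)

/-- the finite conditions -/
structure Good : Prop where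
  adm : ∀ t ch, d.Adm t ch → d.Conf t ch
  hx : ∀ c, 2 * d.a + ∑ w, ∑ j, (if d.C w j = Sum.inr (false, c) then 1 else 0) ≤ d.a + d.b + 1
  hy : ∀ c, 2 * d.b + ∑ w, ∑ j, (if d.C w j = Sum.inr (true, c) then 1 else 0) ≤ d.a + d.b + 1
  hbig : ∀ z, d.big z ≤ 2
  hsmall : ∀ z, d.small z ≤ d.a + d.b + 1


/-! ### No latin transversal -/

theorem count {N m s : ℕ} (g : Fin N → Fin m × Bool ⊕ Fin s) (hg : Function.Injective g)
    (hcl : ∀ r r' p p', g r = Sum.inl p → g r' = Sum.inl p' → p.1 = p'.1 → r = r')
    (E : Finset (Fin m)) (hE : ∀ r p, g r = Sum.inl p → p.1 ∈ E)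
    (J : Finset (Fin s)) (hJ : ∀ r j, g r = Sum.inr j → j ∈ J) : N ≤ E.card + J.card := by
  classical
  rw [← Finset.card_disjSum]
  have h := card_le_card_of_injOn (s := (univ : Finset (Fin N))) (t := E.disjSum J)
    (fun r => Sum.map Prod.fst id (g r)) ?_ ?_
  · rwa [card_univ, Fintype.card_fin] at h
  · intro r _
    rcases hr : g r with p | j
    · simp only [hr, Sum.map_inl]
      exact inl_mem_disjSum.2 (hE r p hr)
    · simp only [hr, Sum.map_inr]
      exact inr_mem_disjSum.2 (hJ r j hr)
  · intro r _ r' _ h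
    simp only at h
    rcases hr : g r with p | j <;> rcases hr' : g r' with p' | j' <;>
      rw [hr, hr'] at h
    · rw [Sum.map_inl, Sum.map_inl] at h
      exact hcl r r' p p' hr hr' (Sum.inl.inj h)
    · rw [Sum.map_inl, Sum.map_inr] at h
      cases h
    · rw [Sum.map_inr, Sum.map_inl] at h
      cases h
    · rw [Sum.map_inr, Sum.map_inr] at h
      have h' : j = j' := Sum.inr.inj h
      exact hg (hr.trans (h' ▸ hr'.symm))

/-- the type of a row -/
def rt : d.Row k → Bool × Bool
  | Sum.inl _ => (false, false)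
  | Sum.inr (Sum.inl _) => (false, true)
  | Sum.inr (Sum.inr w) => (true, w)

/-- what a special row sees -/
def chc : d.Col k → Bool
  | Sum.inl p => bit k p.1 p.2
  | Sum.inr _ => false

theorem rt_special {r : d.Row k} {w : Bool} (h : d.rt k r = (true, w)) :
    r = Sum.inr (Sum.inr w) := by
  rcases r with r | r | w'
  · cases h
  · cases h
  · have : w' = w := (Prod.mk.inj h).2
    rw [this]

theorem rt_a {r : d.Row k} (h : d.rt k r = (false, false)) : ∃ r', r = Sum.inl r' := by
  rcases r with r | r | w'
  · exact ⟨r, rfl⟩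
  · cases h
  · cases h

theorem rt_b {r : d.Row k} (h : d.rt k r = (false, true)) : ∃ r', r = Sum.inr (Sum.inl r') := by
  rcases r with r | r | w'
  · cases h
  · exact ⟨r, rfl⟩
  · cases h

theorem bit_cls (c c' : Bool) : bit k (cls k c) c' = c := by
  cases c
  · rfl
  · have h : (1 : Fin (k + 2)) ≠ 0 := by
      intro h
      have := congrArg Fin.val h
      simp at this
    simp [bit, cls, h]

section noT

variable (e : d.Row k ≃ d.Col k)

/-- the profile -/
def prof (j : Fin (d.a + d.b + 2)) : Bool × Bool := d.rt k (e.symm (Sum.inr j))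

/-- the choices of the special rows -/
def chs (w : Bool) : Bool := d.chc k (e (Sum.inr (Sum.inr w)))

theorem T_fs {j : Fin (d.a + d.b + 2)} {z : Fin d.F} (h : d.fs (d.prof k e) j = some z) :
    d.T k (e.symm (Sum.inr j)) (Sum.inr j) = Sum.inr (Sum.inr z) := by
  unfold fs prof at h
  rcases hr : e.symm (Sum.inr j) with r | r | w
  · rw [hr] at h
    have h' : some (d.A j) = some z := h
    exact congrArg (fun z => Sum.inr (Sum.inr z)) (Option.some.inj h')
  · rw [hr] at h
    have h' : some (d.B j) = some z := h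
    exact congrArg (fun z => Sum.inr (Sum.inr z)) (Option.some.inj h')
  · rw [hr] at h
    rcases hC : d.C w j with z' | q
    · simp only [rt, hC] at h
      change d.sg k (d.C w j) = _
      rw [hC, Option.some.inj h]
      rfl
    · simp only [rt, hC] at h
      cases h

theorem special_pair {w : Bool} (h : ∀ j, d.prof k e j ≠ (true, w)) :
    ∃ p, e (Sum.inr (Sum.inr w)) = Sum.inl p := by
  rcases hp : e (Sum.inr (Sum.inr w)) with p | j
  · exact ⟨p, rfl⟩
  · exfalso
    apply h j
    have : e.symm (Sum.inr j) = Sum.inr (Sum.inr w) := by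
      rw [← hp, Equiv.symm_apply_apply]
    unfold prof
    rw [this]
    rfl

theorem T_special {w : Bool} (h : ∀ j, d.prof k e j ≠ (true, w)) :
    d.T k (Sum.inr (Sum.inr w)) (e (Sum.inr (Sum.inr w))) =
      Sum.inr (Sum.inr (d.U w (d.chs k e w))) := by
  obtain ⟨p, hp⟩ := d.special_pair k e h
  unfold chs
  rw [hp]
  rfl

variable (hinj : Function.Injective fun r => d.T k r (e r))

include hinj

theorem inj_col {c c' : d.Col k} (h : d.T k (e.symm c) c = d.T k (e.symm c') c') : c = c' := by
  have h1 : e.symm c = e.symm c' := hinj (by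
    simp only [Equiv.apply_symm_apply]
    exact h)
  exact e.symm.injective h1

theorem not_conf : ¬ d.Conf (d.prof k e) (d.chs k e) := by
  rintro (⟨j, j', hne, hn, hj⟩ | ⟨w, j, hw, hj⟩ | ⟨hw, hU⟩)
  · rcases hz : d.fs (d.prof k e) j with _ | z
    · exact hn hz
    · have h1 := d.T_fs k e hz
      have h2 := d.T_fs k e (hj ▸ hz)
      exact hne (Sum.inr.inj (d.inj_col k e hinj (h1.trans h2.symm)))
  · have h1 := d.T_fs k e hj
    have h2 := d.T_special k e hw
    have h3 : (Sum.inr j : d.Col k) = e (Sum.inr (Sum.inr w)) := by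
      apply d.inj_col k e hinj
      rw [Equiv.symm_apply_apply, h1, h2]
    obtain ⟨p, hp⟩ := d.special_pair k e hw
    rw [hp] at h3
    cases h3
  · have h1 := d.T_special k e (hw false)
    have h2 := d.T_special k e (hw true)
    have h3 : e (Sum.inr (Sum.inr false)) = e (Sum.inr (Sum.inr true)) := by
      apply d.inj_col k e hinj
      rw [Equiv.symm_apply_apply, Equiv.symm_apply_apply, h1, h2, hU]
    have h4 := e.injective h3
    cases h4

theorem cls_a (r r' : Fin (k + 2 + d.a)) (p p' : Fin (k + 2) × Bool)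
    (h : e (Sum.inl r) = Sum.inl p) (h' : e (Sum.inl r') = Sum.inl p') (hp : p.1 = p'.1) :
    r = r' := by
  have h1 : (Sum.inl r : d.Row k) = Sum.inl r' := hinj (by
    simp only [h, h']
    change (Sum.inl p.1 : d.Sym k) = Sum.inl p'.1
    rw [hp])
  exact Sum.inl.inj h1

theorem cls_b (r r' : Fin (k + 2 + d.b)) (p p' : Fin (k + 2) × Bool)
    (h : e (Sum.inr (Sum.inl r)) = Sum.inl p) (h' : e (Sum.inr (Sum.inl r')) = Sum.inl p')
    (hp : p.1 = p'.1) : r = r' := by
  have h1 : (Sum.inr (Sum.inl r) : d.Row k) = Sum.inr (Sum.inl r') := hinj (by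
    simp only [h, h']
    change (Sum.inr (Sum.inl p.1) : d.Sym k) = Sum.inr (Sum.inl p'.1)
    rw [hp])
  exact Sum.inl.inj (Sum.inr.inj h1)

theorem count_a (E : Finset (Fin (k + 2)))
    (hE : ∀ r p, e (Sum.inl r) = Sum.inl p → p.1 ∈ E) :
    k + 2 + d.a ≤ E.card + d.cnt (d.prof k e) (false, false) := by
  refine count (fun r => e (Sum.inl r)) (fun r r' h => Sum.inl.inj (e.injective h))
    (d.cls_a k e hinj) E hE _ ?_
  intro r j hj
  refine mem_filter.2 ⟨mem_univ _, ?_⟩
  have : e.symm (Sum.inr j) = Sum.inl r := by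
    rw [← hj, Equiv.symm_apply_apply]
  unfold prof
  rw [this]
  rfl

theorem count_b (E : Finset (Fin (k + 2)))
    (hE : ∀ r p, e (Sum.inr (Sum.inl r)) = Sum.inl p → p.1 ∈ E) :
    k + 2 + d.b ≤ E.card + d.cnt (d.prof k e) (false, true) := by
  refine count (fun r => e (Sum.inr (Sum.inl r)))
    (fun r r' h => Sum.inl.inj (Sum.inr.inj (e.injective h)))
    (d.cls_b k e hinj) E hE _ ?_
  intro r j hj
  refine mem_filter.2 ⟨mem_univ _, ?_⟩
  have : e.symm (Sum.inr j) = Sum.inr (Sum.inl r) := by
    rw [← hj, Equiv.symm_apply_apply]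
  unfold prof
  rw [this]
  rfl

theorem adm_prof : d.Adm (d.prof k e) (d.chs k e) := by
  have hsp : ∀ w j, d.prof k e j = (true, w) → e (Sum.inr (Sum.inr w)) = Sum.inr j := by
    intro w j h
    rw [← d.rt_special k h, Equiv.apply_symm_apply]
  refine ⟨?_, ?_, ?_, ?_⟩
  · have := d.count_a k e hinj univ (fun _ _ _ => mem_univ _)
    rw [card_univ, Fintype.card_fin] at this
    omega
  · have := d.count_b k e hinj univ (fun _ _ _ => mem_univ _)
    rw [card_univ, Fintype.card_fin] at this
    omega
  · intro w j j' hj hj'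
    have h1 := hsp w j hj
    have h2 := hsp w j' hj'
    exact Sum.inr.inj (h1.symm.trans h2)
  · intro w j x c hj hC
    have hw := hsp w j hj
    have hT : d.T k (Sum.inr (Sum.inr w)) (e (Sum.inr (Sum.inr w))) = d.sg k (Sum.inr (x, c)) := by
      rw [hw, ← hC]
      rfl
    -- the two columns of the class are covered by the other special row
    have hcov : (∀ p, p.1 = cls k c → ∀ r, e.symm (Sum.inl p) ≠ Sum.inl r) ∨
        (∀ p, p.1 = cls k c → ∀ r, e.symm (Sum.inl p) ≠ Sum.inr (Sum.inl r)) →
        (∀ j', d.prof k e j' ≠ (true, !w)) ∧ d.chs k e (!w) = c := by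
      intro hno
      have hex : ∃ c', e.symm (Sum.inl (cls k c, c')) = Sum.inr (Sum.inr (!w)) := by
        have hrow : ∀ c', (∃ r, e.symm (Sum.inl (cls k c, c')) = Sum.inl r) ∨
            (∃ r, e.symm (Sum.inl (cls k c, c')) = Sum.inr (Sum.inl r)) ∨
            e.symm (Sum.inl (cls k c, c')) = Sum.inr (Sum.inr (!w)) := by
          intro c'
          rcases hr : e.symm (Sum.inl (cls k c, c')) with r | r | w'
          · exact Or.inl ⟨r, rfl⟩
          · exact Or.inr (Or.inl ⟨r, rfl⟩)
          · right
            right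
            by_cases hww : w' = !w
            · rw [hww]
            · exfalso
              have hww' : w' = w := by
                cases w' <;> cases w <;> simp_all
              rw [hww'] at hr
              have : e (Sum.inr (Sum.inr w)) = Sum.inl (cls k c, c') := by
                rw [← hr, Equiv.apply_symm_apply]
              rw [hw] at this
              cases this
        by_contra hcon
        rcases hno with hno | hno
        · rcases hrow false with ⟨r, hr⟩ | ⟨r, hr⟩ | hr
          · exact hno (cls k c, false) rfl r hr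
          · rcases hrow true with ⟨r', hr'⟩ | ⟨r', hr'⟩ | hr'
            · exact hno (cls k c, true) rfl r' hr'
            · have h1 : e (Sum.inr (Sum.inl r)) = Sum.inl (cls k c, false) := by
                rw [← hr, Equiv.apply_symm_apply]
              have h2 : e (Sum.inr (Sum.inl r')) = Sum.inl (cls k c, true) := by
                rw [← hr', Equiv.apply_symm_apply]
              have h3 := d.cls_b k e hinj r r' _ _ h1 h2 rfl
              rw [h3, h2] at h1
              have h4 := Sum.inl.inj h1
              have h5 := congrArg Prod.snd h4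
              cases h5
            · exact hcon ⟨_, hr'⟩
          · exact hcon ⟨_, hr⟩
        · rcases hrow false with ⟨r, hr⟩ | ⟨r, hr⟩ | hr
          · rcases hrow true with ⟨r', hr'⟩ | ⟨r', hr'⟩ | hr'
            · have h1 : e (Sum.inl r) = Sum.inl (cls k c, false) := by
                rw [← hr, Equiv.apply_symm_apply]
              have h2 : e (Sum.inl r') = Sum.inl (cls k c, true) := by
                rw [← hr', Equiv.apply_symm_apply]
              have h3 := d.cls_a k e hinj r r' _ _ h1 h2 rfl
              rw [h3, h2] at h1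
              have h4 := Sum.inl.inj h1
              have h5 := congrArg Prod.snd h4
              cases h5
            · exact hno (cls k c, true) rfl r' hr'
            · exact hcon ⟨_, hr'⟩
          · exact hno (cls k c, false) rfl r hr
          · exact hcon ⟨_, hr⟩
      obtain ⟨c', hc'⟩ := hex
      have he : e (Sum.inr (Sum.inr (!w))) = Sum.inl (cls k c, c') := by
        rw [← hc', Equiv.apply_symm_apply]
      constructor
      · intro j' hj'
        have := hsp _ j' hj'
        rw [he] at this
        cases this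
      · unfold chs
        rw [he]
        exact bit_cls k c c'
    have hcardE : (univ.erase (cls k c) : Finset (Fin (k + 2))).card = k + 1 := by
      rw [card_erase_of_mem (mem_univ _), card_univ, Fintype.card_fin]
      rfl
    cases x
    · -- `x` in class `c`
      have hna : ∀ r p, e (Sum.inl r) = Sum.inl p → p.1 ≠ cls k c := by
        intro r p hp hpc
        have h1 : (Sum.inl r : d.Row k) = Sum.inr (Sum.inr w) := hinj (by
          simp only
          rw [hT, hp]
          change (Sum.inl p.1 : d.Sym k) = Sum.inl (cls k c)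
          rw [hpc])
        cases h1
      have hno : ∀ p, p.1 = cls k c → ∀ r, e.symm (Sum.inl p) ≠ Sum.inl r := by
        intro p hp r hr
        refine hna r p ?_ hp
        rw [← hr, Equiv.apply_symm_apply]
      obtain ⟨h1, h2⟩ := hcov (Or.inl hno)
      refine ⟨fun _ => ?_, fun h => absurd h (by decide), h1, h2⟩
      have := d.count_a k e hinj (univ.erase (cls k c))
        (fun r p hp => mem_erase.2 ⟨hna r p hp, mem_univ _⟩)
      omega
    · have hnb : ∀ r p, e (Sum.inr (Sum.inl r)) = Sum.inl p → p.1 ≠ cls k c := by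
        intro r p hp hpc
        have h1 : (Sum.inr (Sum.inl r) : d.Row k) = Sum.inr (Sum.inr w) := hinj (by
          simp only
          rw [hT, hp]
          change (Sum.inr (Sum.inl p.1) : d.Sym k) = Sum.inr (Sum.inl (cls k c))
          rw [hpc])
        have h2 := Sum.inr.inj h1
        cases h2
      have hno : ∀ p, p.1 = cls k c → ∀ r, e.symm (Sum.inl p) ≠ Sum.inr (Sum.inl r) := by
        intro p hp r hr
        refine hnb r p ?_ hp
        rw [← hr, Equiv.apply_symm_apply]
      obtain ⟨h1, h2⟩ := hcov (Or.inr hno)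
      refine ⟨fun h => absurd h (by decide), fun _ => ?_, h1, h2⟩
      have := d.count_b k e hinj (univ.erase (cls k c))
        (fun r p hp => mem_erase.2 ⟨hnb r p hp, mem_univ _⟩)
      omega

end noT

/-! ### Multiplicities -/

theorem card_T (z : d.Sym k) :
    (univ.filter fun p : d.Row k × d.Col k => d.T k p.1 p.2 = z).card =
    (∑ r : Fin (k + 2 + d.a), ((∑ p : Fin (k + 2) × Bool,
        if d.T k (Sum.inl r) (Sum.inl p) = z then 1 else 0) +
      ∑ j, if d.T k (Sum.inl r) (Sum.inr j) = z then 1 else 0)) +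
    ((∑ r : Fin (k + 2 + d.b), ((∑ p : Fin (k + 2) × Bool,
        if d.T k (Sum.inr (Sum.inl r)) (Sum.inl p) = z then 1 else 0) +
      ∑ j, if d.T k (Sum.inr (Sum.inl r)) (Sum.inr j) = z then 1 else 0)) +
     ∑ w : Bool, ((∑ p : Fin (k + 2) × Bool,
        if d.T k (Sum.inr (Sum.inr w)) (Sum.inl p) = z then 1 else 0) +
      ∑ j, if d.T k (Sum.inr (Sum.inr w)) (Sum.inr j) = z then 1 else 0)) := by
  rw [card_filter, Fintype.sum_prod_type, Fintype.sum_sum_type, Fintype.sum_sum_type]
  simp only [Fintype.sum_sum_type]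


theorem sum_bit (w : Bool) (z : Fin d.F) :
    (∑ p : Fin (k + 2) × Bool, if d.U w (bit k p.1 p.2) = z then 1 else 0) =
      (k + 2) * ((if d.U w false = z then 1 else 0) + (if d.U w true = z then 1 else 0)) := by
  have h0 : ∀ c, bit k 0 c = false := fun c => rfl
  have h1 : ∀ c, bit k (Fin.succ 0) c = true := fun c => bit_cls k true c
  have h2 : ∀ (i : Fin k) c, bit k i.succ.succ c = c := by
    intro i c
    have ha : i.succ.succ ≠ (0 : Fin (k + 2)) := Fin.succ_ne_zero _
    have hb : i.succ.succ ≠ (1 : Fin (k + 2)) := by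
      intro h
      have := congrArg Fin.val h
      simp at this
    simp [bit, ha, hb]
  rw [Fintype.sum_prod_type, Fin.sum_univ_succ, Fin.sum_univ_succ]
  simp only [Fintype.sum_bool, h0, h1, h2, sum_const, card_univ, Fintype.card_fin,
    Fintype.card_bool, smul_eq_mul]
  ring

theorem sg_x {q : Fin d.F ⊕ Bool × Bool} {i : Fin (k + 2)} (h : d.sg k q = Sum.inl i) :
    q = Sum.inr (false, decide (i = 1)) := by
  rcases q with z | ⟨x, c⟩
  · cases h
  · cases x
    · have h' : cls k c = i := Sum.inl.inj h
      have : decide (i = 1) = c := by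
        rw [← h']
        cases c
        · have : (0 : Fin (k + 2)) ≠ 1 := by
            intro h
            have := congrArg Fin.val h
            simp at this
          simp [cls]
        · simp [cls]
      rw [this]
    · cases h

theorem sg_y {q : Fin d.F ⊕ Bool × Bool} {i : Fin (k + 2)}
    (h : d.sg k q = Sum.inr (Sum.inl i)) : q = Sum.inr (true, decide (i = 1)) := by
  rcases q with z | ⟨x, c⟩
  · have h' := Sum.inr.inj h
    cases h'
  · cases x
    · cases h
    · have h' : cls k c = i := Sum.inl.inj (Sum.inr.inj h)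
      have : decide (i = 1) = c := by
        rw [← h']
        cases c
        · have : (0 : Fin (k + 2)) ≠ 1 := by
            intro h
            have := congrArg Fin.val h
            simp at this
          simp [cls]
        · simp [cls]
      rw [this]

theorem sg_z {q : Fin d.F ⊕ Bool × Bool} {z : Fin d.F}
    (h : d.sg k q = Sum.inr (Sum.inr z)) : q = Sum.inl z := by
  rcases q with z' | ⟨x, c⟩
  · have : z' = z := Sum.inr.inj (Sum.inr.inj h)
    rw [this]
  · cases x
    · cases h
    · have h' := Sum.inr.inj h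
      cases h'

theorem ite_le {p q : Prop} [Decidable p] [Decidable q] (h : p → q) :
    (if p then 1 else 0 : ℕ) ≤ if q then 1 else 0 := by
  by_cases hp : p
  · rw [if_pos hp, if_pos (h hp)]
  · rw [if_neg hp]
    exact Nat.zero_le _

theorem card_T_le (hG : d.Good) (z : d.Sym k) :
    (univ.filter fun p : d.Row k × d.Col k => d.T k p.1 p.2 = z).card ≤
      2 * (k + 2) + d.a + d.b + 1 := by
  rw [card_T]
  rcases z with i | i | z
  · have h1 : (∑ w : Bool, ∑ j, if d.T k (Sum.inr (Sum.inr w)) (Sum.inr j) = Sum.inl i then 1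
        else 0) ≤ ∑ w, ∑ j, (if d.C w j = Sum.inr (false, decide (i = 1)) then 1 else 0) :=
      sum_le_sum fun w _ => sum_le_sum fun j _ => ite_le fun h => d.sg_x k h
    have h2 : ∀ (r : Fin (k + 2 + d.a)), (∑ p : Fin (k + 2) × Bool,
        if d.T k (Sum.inl r) (Sum.inl p) = Sum.inl i then 1 else 0) = 2 := by
      intro r
      rw [Fintype.sum_prod_type]
      simp [T]
    have hx := hG.hx (decide (i = 1))
    simp only [h2]
    simp only [T, reduceCtorEq, if_false, sum_const_zero, add_zero, zero_add, sum_const, card_univ,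
      Fintype.card_fin, smul_eq_mul] at h1 ⊢
    omega
  · have h1 : (∑ w : Bool, ∑ j, if d.T k (Sum.inr (Sum.inr w)) (Sum.inr j) = Sum.inr (Sum.inl i)
        then 1 else 0) ≤ ∑ w, ∑ j, (if d.C w j = Sum.inr (true, decide (i = 1)) then 1 else 0) :=
      sum_le_sum fun w _ => sum_le_sum fun j _ => ite_le fun h => d.sg_y k h
    have h2 : ∀ (r : Fin (k + 2 + d.b)), (∑ p : Fin (k + 2) × Bool,
        if d.T k (Sum.inr (Sum.inl r)) (Sum.inl p) = Sum.inr (Sum.inl i) then 1 else 0) = 2 := by
      intro r
      rw [Fintype.sum_prod_type]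
      simp [T]
    have hy := hG.hy (decide (i = 1))
    simp only [h2]
    simp only [T, reduceCtorEq, Sum.inr.injEq, if_false, sum_const_zero, add_zero, zero_add,
      sum_const, card_univ, Fintype.card_fin, smul_eq_mul] at h1 ⊢
    omega
  · have h1 : (∑ w : Bool, ∑ j, if d.T k (Sum.inr (Sum.inr w)) (Sum.inr j) = Sum.inr (Sum.inr z)
        then 1 else 0) ≤ ∑ w, ∑ j, (if d.C w j = Sum.inl z then 1 else 0) :=
      sum_le_sum fun w _ => sum_le_sum fun j _ => ite_le fun h => d.sg_z k h
    have h2 : (∑ w : Bool, ∑ p : Fin (k + 2) × Bool,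
        if d.T k (Sum.inr (Sum.inr w)) (Sum.inl p) = Sum.inr (Sum.inr z) then 1 else 0) =
        (k + 2) * ∑ w, ((if d.U w false = z then 1 else 0) + (if d.U w true = z then 1 else 0)) := by
      rw [mul_sum]
      refine sum_congr rfl fun w _ => ?_
      rw [← sum_bit]
      refine sum_congr rfl fun p _ => ?_
      simp only [T, Sum.inr.injEq]
    have hb := hG.hbig z
    have hs := hG.hsmall z
    unfold big at hb
    unfold small at hs
    rw [sum_add_distrib (s := (univ : Finset Bool)), h2]
    simp only [T, reduceCtorEq, Sum.inr.injEq, if_false, sum_const_zero, zero_add,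
      sum_const, card_univ, Fintype.card_fin, smul_eq_mul] at h1 ⊢
    nlinarith [hb, hs, h1]

theorem not_stein (hG : d.Good) : ¬ Stein (2 * (k + 2) + d.a + d.b + 2) := by
  refine not_stein_types (R := d.Row k) (K := d.Col k) (S := d.Sym k) ?_ ?_ (d.T k) ?_ ?_
  · simp only [Fintype.card_sum, Fintype.card_fin, Fintype.card_bool]
    omega
  · simp only [Fintype.card_sum, Fintype.card_fin, Fintype.card_bool, Fintype.card_prod]
    omega
  · intro z
    exact d.card_T_le k hG z
  · intro e hinj
    exact d.not_conf k e hinj (hG.adm _ _ (d.adm_prof k e hinj))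

end Dat

end Pool.Agent.STN
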