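import Pool.Agent.STN.Fam

/-!
# Stein's problem of 1975 for small orders (helper18)

`Stein n` holds for `n ≤ 4` and fails for `n = 5, 6, 7`.
-/

set_option autoImplicit false
set_option maxRecDepth 100000

namespace Pool.Agent.STN

open Finset

/-! ### The positive part: counting -/

/-- If a set `C` of at most `n - 1` cells meets at most `(b / a) |C|` of `K` given transversals in
two or more cells and `b n ^ 2 < a K`, then one of them is latin. -/
theorem stein_of_table {n K : ℕ} (P : Fin K → Fin n → Fin n) (hP : ∀ k, Function.Injective (P k))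
    (a b : ℕ) (hab : b * (n * n) < a * K)
    (h : ∀ C : Finset (Fin n × Fin n), C.card ≤ n - 1 → a * (univ.filter fun k : Fin K =>
      ∃ i j, i ≠ j ∧ (i, P k i) ∈ C ∧ (j, P k j) ∈ C).card ≤ b * C.card) : Stein n := by
  classical
  intro A hA
  by_contra hno
  have hbad : ∀ k, ∃ i j, i ≠ j ∧ A i (P k i) = A j (P k j) := by
    intro k
    by_contra hk
    refine hno ⟨Equiv.ofBijective (P k) (Finite.injective_iff_bijective.1 (hP k)), ?_⟩
    intro i j hij
    by_contra hne
    exact hk ⟨i, j, hne, hij⟩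
  let S : Finset ℕ := univ.image fun p : Fin n × Fin n => A p.1 p.2
  let C : ℕ → Finset (Fin n × Fin n) := fun s => univ.filter fun p => A p.1 p.2 = s
  let Z : ℕ → Finset (Fin K) := fun s => univ.filter fun k =>
    ∃ i j, i ≠ j ∧ (i, P k i) ∈ C s ∧ (j, P k j) ∈ C s
  have h1 : (univ : Finset (Fin K)) ⊆ S.biUnion Z := by
    intro k _
    obtain ⟨i, j, hij, he⟩ := hbad k
    rw [mem_biUnion]
    refine ⟨A i (P k i), mem_image.2 ⟨(i, P k i), mem_univ _, rfl⟩, ?_⟩
    refine mem_filter.2 ⟨mem_univ _, i, j, hij, ?_, ?_⟩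
    · exact mem_filter.2 ⟨mem_univ _, rfl⟩
    · exact mem_filter.2 ⟨mem_univ _, he.symm⟩
  have h2 : K ≤ ∑ s ∈ S, (Z s).card := by
    have := (card_le_card h1).trans card_biUnion_le
    rwa [card_univ, Fintype.card_fin] at this
  have h3 : ∑ s ∈ S, (C s).card = n * n := by
    have := (card_eq_sum_card_image (fun p : Fin n × Fin n => A p.1 p.2) univ).symm
    rw [card_univ, Fintype.card_prod, Fintype.card_fin] at this
    exact this
  have h4 : a * K ≤ b * (n * n) := by
    calc a * K ≤ a * ∑ s ∈ S, (Z s).card := Nat.mul_le_mul_left _ h2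
      _ = ∑ s ∈ S, a * (Z s).card := mul_sum _ _ _
      _ ≤ ∑ s ∈ S, b * (C s).card := sum_le_sum fun s _ => h (C s) (hA s)
      _ = b * ∑ s ∈ S, (C s).card := (mul_sum _ _ _).symm
      _ = b * (n * n) := by rw [h3]
  exact absurd hab (not_lt.2 h4)

/-- Sets with at most one cell do not matter. -/
theorem small_card {n K : ℕ} (P : Fin K → Fin n → Fin n) (C : Finset (Fin n × Fin n))
    (hC : C.card ≤ 1) : (univ.filter fun k : Fin K =>
      ∃ i j, i ≠ j ∧ (i, P k i) ∈ C ∧ (j, P k j) ∈ C).card = 0 := by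
  rw [card_eq_zero, filter_eq_empty_iff]
  rintro k _ ⟨i, j, hij, hi, hj⟩
  have := card_le_one.1 hC _ hi _ hj
  exact hij (congrArg Prod.fst this)

/-- The permutations of 1 points. -/
def P1 : Fin 1 → Fin 1 → Fin 1 :=
  ![![0]]

/-- The permutations of 2 points. -/
def P2 : Fin 2 → Fin 2 → Fin 2 :=
  ![![0, 1],
    ![1, 0]]

/-- The permutations of 3 points. -/
def P3 : Fin 6 → Fin 3 → Fin 3 :=
  ![![0, 1, 2],
    ![0, 2, 1],
    ![1, 0, 2],
    ![1, 2, 0],
    ![2, 0, 1],
    ![2, 1, 0]]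

/-- The permutations of 4 points. -/
def P4 : Fin 24 → Fin 4 → Fin 4 :=
  ![![0, 1, 2, 3],
    ![0, 1, 3, 2],
    ![0, 2, 1, 3],
    ![0, 2, 3, 1],
    ![0, 3, 1, 2],
    ![0, 3, 2, 1],
    ![1, 0, 2, 3],
    ![1, 0, 3, 2],
    ![1, 2, 0, 3],
    ![1, 2, 3, 0],
    ![1, 3, 0, 2],
    ![1, 3, 2, 0],
    ![2, 0, 1, 3],
    ![2, 0, 3, 1],
    ![2, 1, 0, 3],
    ![2, 1, 3, 0],
    ![2, 3, 0, 1],
    ![2, 3, 1, 0],
    ![3, 0, 1, 2],
    ![3, 0, 2, 1],
    ![3, 1, 0, 2],
    ![3, 1, 2, 0],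
    ![3, 2, 0, 1],
    ![3, 2, 1, 0]]

theorem inj1 : ∀ k, Function.Injective (P1 k) := by decide
theorem inj2 : ∀ k, Function.Injective (P2 k) := by decide
theorem inj3 : ∀ k, Function.Injective (P3 k) := by decide
theorem inj4 : ∀ k, Function.Injective (P4 k) := by decide +kernel

/-- two cells -/
theorem duo3 : ∀ p q : Fin 3 × Fin 3, p ≠ q → (univ.filter fun k : Fin 6 =>
    P3 k p.1 = p.2 ∧ P3 k q.1 = q.2).card ≤ 1 := by decide +kernel

/-- two cells -/
theorem duo4 : ∀ p q : Fin 4 × Fin 4, p ≠ q → (univ.filter fun k : Fin 24 =>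
    P4 k p.1 = p.2 ∧ P4 k q.1 = q.2).card ≤ 2 := by decide +kernel

/-- three cells -/
theorem trio4 : ∀ p q r : Fin 4 × Fin 4, p ≠ q → p ≠ r → q ≠ r → (univ.filter fun k : Fin 24 =>
    (P4 k p.1 = p.2 ∧ P4 k q.1 = q.2) ∨ (P4 k p.1 = p.2 ∧ P4 k r.1 = r.2) ∨
      (P4 k q.1 = q.2 ∧ P4 k r.1 = r.2)).card ≤ 4 := by decide +kernel

theorem hit_duo {n K : ℕ} (P : Fin K → Fin n → Fin n) (p q : Fin n × Fin n) (k : Fin K)
    (h : ∃ i j, i ≠ j ∧ (i, P k i) ∈ ({p, q} : Finset (Fin n × Fin n)) ∧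
      (j, P k j) ∈ ({p, q} : Finset (Fin n × Fin n))) : P k p.1 = p.2 ∧ P k q.1 = q.2 := by
  obtain ⟨i, j, hij, hi, hj⟩ := h
  rw [mem_insert, mem_singleton] at hi hj
  rcases hi with rfl | rfl <;> rcases hj with hj | hj
  · exact absurd (congrArg Prod.fst hj).symm hij
  · exact ⟨rfl, by rw [← hj]⟩
  · exact ⟨by rw [← hj], rfl⟩
  · exact absurd (congrArg Prod.fst hj).symm hij

theorem hit_trio {n K : ℕ} (P : Fin K → Fin n → Fin n) (p q r : Fin n × Fin n) (k : Fin K)
    (h : ∃ i j, i ≠ j ∧ (i, P k i) ∈ ({p, q, r} : Finset (Fin n × Fin n)) ∧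
      (j, P k j) ∈ ({p, q, r} : Finset (Fin n × Fin n))) :
    (P k p.1 = p.2 ∧ P k q.1 = q.2) ∨ (P k p.1 = p.2 ∧ P k r.1 = r.2) ∨
      (P k q.1 = q.2 ∧ P k r.1 = r.2) := by
  obtain ⟨i, j, hij, hi, hj⟩ := h
  rw [mem_insert, mem_insert, mem_singleton] at hi hj
  rcases hi with rfl | rfl | rfl <;> rcases hj with hj | hj | hj
  · exact absurd (congrArg Prod.fst hj).symm hij
  · exact Or.inl ⟨rfl, by rw [← hj]⟩
  · exact Or.inr (Or.inl ⟨rfl, by rw [← hj]⟩)
  · exact Or.inl ⟨by rw [← hj], rfl⟩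
  · exact absurd (congrArg Prod.fst hj).symm hij
  · exact Or.inr (Or.inr ⟨rfl, by rw [← hj]⟩)
  · exact Or.inr (Or.inl ⟨by rw [← hj], rfl⟩)
  · exact Or.inr (Or.inr ⟨by rw [← hj], rfl⟩)
  · exact absurd (congrArg Prod.fst hj).symm hij

theorem stein1 : Stein 1 :=
  stein_of_table P1 inj1 1 0 (by norm_num) fun C hC => by
    rw [small_card P1 C (hC.trans (by norm_num))]
    omega

theorem stein2 : Stein 2 :=
  stein_of_table P2 inj2 1 0 (by norm_num) fun C hC => by
    rw [small_card P2 C (hC.trans (by norm_num))]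
    omega

theorem stein3 : Stein 3 := by
  refine stein_of_table P3 inj3 2 1 (by norm_num) fun C hC => ?_
  rcases (by omega : C.card ≤ 1 ∨ C.card = 2) with h | h
  · rw [small_card P3 C h]
    omega
  · rw [h]
    obtain ⟨p, q, hpq, rfl⟩ := card_eq_two.1 h
    have h1 := card_le_card (monotone_filter_right univ fun k _ => hit_duo P3 p q k)
    have h2 := duo3 p q hpq
    omega

theorem stein4 : Stein 4 := by
  refine stein_of_table P4 inj4 3 4 (by norm_num) fun C hC => ?_
  rcases (by omega : C.card ≤ 1 ∨ C.card = 2 ∨ C.card = 3) with h | h | h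
  · rw [small_card P4 C h]
    omega
  · rw [h]
    obtain ⟨p, q, hpq, rfl⟩ := card_eq_two.1 h
    have h1 := card_le_card (monotone_filter_right univ fun k _ => hit_duo P4 p q k)
    have h2 := duo4 p q hpq
    omega
  · rw [h]
    obtain ⟨p, q, r, hpq, hpr, hqr, rfl⟩ := card_eq_three.1 h
    have h1 := card_le_card (monotone_filter_right univ fun k _ => hit_trio P4 p q r k)
    have h2 := trio4 p q r hpq hpr hqr
    omega

/-! ### The negative part: three arrays -/

/-- Exhaustive search for a latin transversal, row by row. -/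
def search {n : ℕ} (A : Fin n → Fin n → ℕ) : List (Fin n) → List (Fin n) → List ℕ → Bool
  | [], _, _ => true
  | r :: rs, cols, syms => (List.finRange n).any fun c =>
      !(cols.contains c) && (!(syms.contains (A r c)) && search A rs (c :: cols) (A r c :: syms))

theorem search_sound {n : ℕ} (A : Fin n → Fin n → ℕ) (σ : Fin n → Fin n)
    (hσ : Function.Injective σ) (hs : Function.Injective fun i => A i (σ i)) :
    ∀ rs : List (Fin n), rs.Nodup → ∀ (cols : List (Fin n)) (syms : List ℕ),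
      (∀ r ∈ rs, σ r ∉ cols ∧ A r (σ r) ∉ syms) → search A rs cols syms = true := by
  intro rs
  induction rs with
  | nil => intro _ cols syms _; rfl
  | cons r rs ih =>
    intro hnd cols syms h
    rw [List.nodup_cons] at hnd
    rw [search, List.any_eq_true]
    refine ⟨σ r, List.mem_finRange _, ?_⟩
    have hr := h r List.mem_cons_self
    simp only [Bool.and_eq_true, Bool.not_eq_true', List.contains_eq_mem, decide_eq_false_iff_not]
    refine ⟨hr.1, hr.2, ?_⟩
    apply ih hnd.2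
    intro r' hr'
    have hne : r' ≠ r := fun he => hnd.1 (he ▸ hr')
    have h' := h r' (List.mem_cons_of_mem _ hr')
    rw [List.mem_cons, List.mem_cons]
    exact ⟨fun hc => hc.elim (fun he => hne (hσ he)) h'.1,
      fun hc => hc.elim (fun he => hne (hs he)) h'.2⟩

theorem not_stein {n m : ℕ} (A : Fin n → Fin n → ℕ) (hlt : ∀ i j, A i j < m)
    (hc : ∀ s : Fin m, (univ.filter fun p : Fin n × Fin n => A p.1 p.2 = (s : ℕ)).card ≤ n - 1)
    (hf : search A (List.finRange n) [] [] = false) : ¬ Stein n := by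
  intro h
  obtain ⟨σ, hσ⟩ := h A fun s => by
    by_cases hs : s < m
    · exact hc ⟨s, hs⟩
    · have he : (univ.filter fun p : Fin n × Fin n => A p.1 p.2 = s) = ∅ := by
        refine filter_eq_empty_iff.2 fun p _ hp => ?_
        have := hlt p.1 p.2
        omega
      rw [he, card_empty]
      exact Nat.zero_le _
  have := search_sound A σ σ.injective hσ (List.finRange n) (List.nodup_finRange n) [] []
    fun r _ => ⟨List.not_mem_nil, List.not_mem_nil⟩
  rw [hf] at this
  exact Bool.false_ne_true this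

/-- A 5 by 5 array in which every symbol occurs at most 4 times. -/
def arr5 : Fin 5 → Fin 5 → ℕ :=
  ![![2, 5, 1, 5, 4],
    ![2, 5, 1, 5, 4],
    ![4, 3, 4, 3, 6],
    ![3, 0, 3, 0, 6],
    ![1, 6, 2, 6, 0]]

theorem not_stein5 : ¬ Stein 5 :=
  not_stein (m := 7) arr5 (by decide +kernel) (by decide +kernel) (by decide +kernel)

/-- A 6 by 6 array in which every symbol occurs at most 5 times. -/
def arr6 : Fin 6 → Fin 6 → ℕ :=
  ![![6, 6, 3, 6, 2, 0],
    ![3, 3, 6, 3, 2, 0],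
    ![7, 2, 7, 2, 1, 2],
    ![5, 5, 3, 4, 1, 7],
    ![5, 4, 6, 5, 1, 7],
    ![1, 0, 1, 0, 0, 7]]

theorem not_stein6 : ¬ Stein 6 :=
  not_stein (m := 8) arr6 (by decide +kernel) (by decide +kernel) (by decide +kernel)

/-- A 7 by 7 array in which every symbol occurs at most 6 times. -/
def arr7 : Fin 7 → Fin 7 → ℕ :=
  ![![5, 2, 1, 8, 2, 3, 1],
    ![3, 7, 6, 0, 7, 8, 6],
    ![7, 4, 6, 0, 0, 8, 7],
    ![5, 2, 1, 8, 2, 3, 1],
    ![3, 7, 6, 0, 7, 8, 6],
    ![3, 0, 5, 5, 0, 6, 5],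
    ![5, 2, 1, 8, 2, 3, 1]]

theorem not_stein7 : ¬ Stein 7 :=
  not_stein (m := 9) arr7 (by decide +kernel) (by decide +kernel) (by decide +kernel)

theorem stein_small {n : ℕ} (hn : n ≤ 4) : Stein n := by
  rcases Nat.eq_zero_or_pos n with rfl | h1
  · intro A _
    exact ⟨Equiv.refl _, fun i => i.elim0⟩
  · obtain rfl | rfl | rfl | rfl : n = 1 ∨ n = 2 ∨ n = 3 ∨ n = 4 := by omega
    · exact stein1
    · exact stein2
    · exact stein3
    · exact stein4

end Pool.Agent.STN
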